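import Mathlib

/-!
# Zero-dimensional schemes irredundant for a form, and their regularity
-/

namespace Pool.Agent.Lib.MP_254873_ag

open MvPolynomial

/-- The polynomial ring `ℂ[X_0, …, X_{n-1}]`. It is used both for `S = Sym(V^*)` (whose elements
act) and for `Sym(V)` (on which `S` acts), where `V` has dimension `n`. -/
abbrev R (n : ℕ) : Type := MvPolynomial (Fin n) ℂ

/-- The differential operator `(∂/∂X_0)^{a_0} ∘ ⋯ ∘ (∂/∂X_{n-1})^{a_{n-1}}` of the monomial with
exponent vector `a`. -/
noncomputable def diffMon {n : ℕ} (a : Fin n →₀ ℕ) : R n →ₗ[ℂ] R n :=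
  (List.ofFn fun i : Fin n =>
    ((pderiv i : Derivation ℂ (R n) (R n)).toLinearMap ^ (a i) : Module.End ℂ (R n))).prod

/-- The action `g ∘ f` of `g ∈ S` on `f ∈ Sym(V)` by differentiation: every monomial of `g` is
replaced by the corresponding differential operator. -/
noncomputable def act {n : ℕ} (g f : R n) : R n :=
  ∑ a ∈ g.support, coeff a g • diffMon a f

/-- `I ⊆ Ann(f)`. -/
def Apolar {n : ℕ} (I : Ideal (R n)) (f : R n) : Prop :=
  ∀ g ∈ I, act g f = 0

/-- The ideals of the closed subschemes of `ℙV`: homogeneous ideals that are saturated with respect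
to the irrelevant ideal `(X_0, …, X_{n-1})`. (The unit ideal is the ideal of the empty scheme.) -/
structure IsSubschemeIdeal {n : ℕ} (I : Ideal (R n)) : Prop where
  homog : ∀ g ∈ I, ∀ i, homogeneousComponent i g ∈ I
  sat : ∀ g, (∀ j, X j * g ∈ I) → g ∈ I

/-- The Hilbert function `dim_ℂ (S/I)_i`; the degree-`i` piece of `S/I` is the image of the space of
forms of degree `i`. -/
noncomputable def hilb {n : ℕ} (I : Ideal (R n)) (i : ℕ) : ℕ :=
  Module.finrank ℂ
    (Submodule.map (Ideal.Quotient.mkₐ ℂ I).toLinearMap (homogeneousSubmodule (Fin n) ℂ i))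

/-- A (nonempty) zero-dimensional closed subscheme of `ℙV`, `dim V = n`, given by its saturated
homogeneous ideal; its Hilbert function is eventually constant and equal to its degree `deg > 0`. -/
structure ZeroDimScheme (n : ℕ) where
  ideal : Ideal (R n)
  isSub : IsSubschemeIdeal ideal
  deg : ℕ
  deg_pos : 0 < deg
  hilb_eq : ∀ᶠ i in Filter.atTop, hilb ideal i = deg

/-- The regularity: the least `i` with `h_Z(i) = deg Z`. -/
noncomputable def ZeroDimScheme.reg {n : ℕ} (Z : ZeroDimScheme n) : ℕ :=
  sInf {i : ℕ | hilb Z.ideal i = Z.deg}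

/-- `Z` is irredundant for `f`: it is apolar to `f`, and no closed subscheme strictly contained in
`Z` (i.e. with strictly larger saturated homogeneous ideal) is apolar to `f`. -/
structure Irredundant {n : ℕ} (Z : ZeroDimScheme n) (f : R n) : Prop where
  apolar : Apolar Z.ideal f
  minimal : ∀ J : Ideal (R n), IsSubschemeIdeal J → Z.ideal < J → ¬ Apolar J f

/-- `M(n,d)`, the supremum (in `ℕ ∪ {∞}`) of the regularities of the zero-dimensional subschemes of
`ℙV`, `dim V = n`, that are irredundant for some nonzero form `f` of degree `d`. -/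
noncomputable def M (n d : ℕ) : ℕ∞ :=
  sSup {m : ℕ∞ | ∃ (f : R n) (Z : ZeroDimScheme n),
    f ≠ 0 ∧ f.IsHomogeneous d ∧ Irredundant Z f ∧ m = Z.reg}

end Pool.Agent.Lib.MP_254873_ag
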