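import Mathlib
import Pool.Agent.Lib.MP_254873_ag.Defs

/-!
# Proof of the determination of `M(n,d)`
-/

namespace Pool.Agent.Lib.MP_254873_ag

open MvPolynomial

/-! ### differentiation -/

lemma pderiv_pow_monomial {n : ℕ} (i : Fin n) (k : ℕ) (b : Fin n →₀ ℕ) (c : ℂ) :
    (((pderiv i : Derivation ℂ (R n) (R n)).toLinearMap ^ k : Module.End ℂ (R n)))
      (monomial b c) = monomial (b - Finsupp.single i k) (c * ((b i).descFactorial k : ℂ)) := by
  induction k with
  | zero => simp
  | succ k ih =>
    rw [pow_succ', Module.End.mul_apply, ih]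
    rw [Derivation.coeFn_coe, pderiv_monomial]
    rw [tsub_tsub, ← Finsupp.single_add]
    congr 1
    rw [Nat.descFactorial_succ]
    simp only [Finsupp.coe_tsub, Pi.sub_apply, Finsupp.single_eq_same]
    push_cast
    ring

lemma listprod_monomial {n : ℕ} (a : Fin n →₀ ℕ) (l : List (Fin n)) (hl : l.Nodup)
    (b : Fin n →₀ ℕ) (c : ℂ) :
    ((l.map fun i : Fin n =>
      ((pderiv i : Derivation ℂ (R n) (R n)).toLinearMap ^ (a i) : Module.End ℂ (R n))).prod)
      (monomial b c) = monomial (b - (l.map fun i => Finsupp.single i (a i)).sum)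
        (c * ((l.map fun i => ((b i).descFactorial (a i) : ℂ)).prod)) := by
  induction l with
  | nil => simp
  | cons i l ih =>
    have hil : i ∉ l := (List.nodup_cons.mp hl).1
    have hl' : l.Nodup := (List.nodup_cons.mp hl).2
    rw [List.map_cons, List.prod_cons, Module.End.mul_apply, ih hl', pderiv_pow_monomial]
    rw [List.map_cons, List.sum_cons, List.map_cons, List.prod_cons, tsub_tsub, add_comm]
    congr 1
    have : (b - (l.map fun i => Finsupp.single i (a i)).sum) i = b i := by
      have h0 : ((l.map fun i => Finsupp.single i (a i)).sum) i = 0 := by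
        clear ih hl
        induction l with
        | nil => simp
        | cons j l ih =>
          simp only [List.map_cons, List.sum_cons, Finsupp.coe_add, Pi.add_apply]
          have hij : i ≠ j := fun h => hil (by simp [h])
          have : i ∉ l := fun h => hil (by simp [h])
          rw [ih this (List.nodup_cons.mp hl').2, Finsupp.single_apply, if_neg (Ne.symm hij)]
      simp [h0]
    rw [this]
    ring

lemma diffMon_monomial {n : ℕ} (a b : Fin n →₀ ℕ) (c : ℂ) :
    diffMon a (monomial b c) = monomial (b - a) (c * ∏ i, ((b i).descFactorial (a i) : ℂ)) := by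
  unfold diffMon
  rw [List.ofFn_eq_map, listprod_monomial a _ (List.nodup_finRange n)]
  have h1 : (List.map (fun i => Finsupp.single i (a i)) (List.finRange n)).sum = a := by
    rw [← List.ofFn_eq_map, List.sum_ofFn]
    exact Finsupp.univ_sum_single a
  have h2 : (List.map (fun i => ((b i).descFactorial (a i) : ℂ)) (List.finRange n)).prod
      = ∏ i, ((b i).descFactorial (a i) : ℂ) := by
    rw [← List.ofFn_eq_map, List.prod_ofFn]
  rw [h1, h2]

lemma diffMon_monomial_eq_zero {n : ℕ} {a b : Fin n →₀ ℕ} (c : ℂ) (h : ¬ a ≤ b) :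
    diffMon a (monomial b c) = 0 := by
  rw [diffMon_monomial]
  have : ∃ i, b i < a i := by
    by_contra hcon
    push Not at hcon
    exact h (fun i => hcon i)
  obtain ⟨i, hi⟩ := this
  have : ∏ i, ((b i).descFactorial (a i) : ℂ) = 0 := by
    apply Finset.prod_eq_zero (Finset.mem_univ i)
    exact_mod_cast Nat.descFactorial_eq_zero_iff_lt.mpr hi
  rw [this]
  simp

lemma diffMon_eq_zero_of_degree {n : ℕ} {a : Fin n →₀ ℕ} {f : R n} {d : ℕ}
    (hf : f.IsHomogeneous d) (h : d < a.degree) : diffMon a f = 0 := by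
  rw [f.as_sum, map_sum]
  apply Finset.sum_eq_zero
  intro b hb
  apply diffMon_monomial_eq_zero
  intro hab
  have h1 : b.degree = d := by
    by_contra hne
    exact (mem_support_iff.mp hb) (hf.coeff_eq_zero hne)
  have h2 : a.degree ≤ b.degree := by
    rw [Finsupp.degree_eq_sum, Finsupp.degree_eq_sum]
    exact Finset.sum_le_sum fun i _ => hab i
  omega

lemma act_monomial {n : ℕ} (a : Fin n →₀ ℕ) (f : R n) :
    act (monomial a 1) f = diffMon a f := by
  unfold act
  rw [support_monomial, if_neg one_ne_zero]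
  simp

lemma act_eq_zero_of_degree {n : ℕ} {g f : R n} {d : ℕ}
    (hf : f.IsHomogeneous d) (h : ∀ i ≤ d, homogeneousComponent i g = 0) : act g f = 0 := by
  unfold act
  apply Finset.sum_eq_zero
  intro a ha
  rcases le_or_gt a.degree d with h1 | h1
  · have := h _ h1
    have h2 : coeff a (homogeneousComponent a.degree g) = coeff a g := by
      rw [coeff_homogeneousComponent, if_pos rfl]
    rw [this] at h2
    rw [← h2]
    simp
  · rw [diffMon_eq_zero_of_degree hf h1, smul_zero]

lemma act_monomial_eq_zero {n : ℕ} {g : R n} {b : Fin n →₀ ℕ}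
    (h : ∀ a ≤ b, coeff a g = 0) : act g (monomial b 1) = 0 := by
  unfold act
  apply Finset.sum_eq_zero
  intro a ha
  by_cases hab : a ≤ b
  · rw [h a hab, zero_smul]
  · rw [diffMon_monomial_eq_zero _ hab, smul_zero]

lemma act_monomial_ne_zero {n : ℕ} {a b : Fin n →₀ ℕ} (h : a ≤ b) :
    act (monomial a 1) (monomial b 1) ≠ 0 := by
  rw [act_monomial, diffMon_monomial]
  rw [Ne, monomial_eq_zero, one_mul, Finset.prod_eq_zero_iff]
  rintro ⟨i, _, hi⟩
  have : (b i).descFactorial (a i) = 0 := by exact_mod_cast hi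
  rw [Nat.descFactorial_eq_zero_iff_lt] at this
  have := h i
  omega

/-! ### Ideals of curvilinear schemes -/

section curve

variable {n : ℕ} (u : Fin n → Polynomial ℂ) (r : ℕ)

noncomputable def Phi : R n →ₐ[ℂ] Polynomial (Polynomial ℂ) :=
  aeval (fun i => Polynomial.C (u i) * Polynomial.X)

noncomputable def K : Ideal (R n) :=
  Ideal.comap (Phi u) (Ideal.span {Polynomial.C (Polynomial.X ^ r)})

lemma Phi_monomial (m : Fin n →₀ ℕ) (c : ℂ) :
    Phi u (monomial m c) = Polynomial.C (aeval u (monomial m c)) * Polynomial.X ^ m.degree := by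
  unfold Phi
  rw [aeval_monomial, aeval_monomial, Finsupp.prod_fintype _ _ (by simp),
    Finsupp.prod_fintype _ _ (by simp), Finsupp.degree_eq_sum]
  simp only [mul_pow, Finset.prod_mul_distrib, map_mul, map_prod, map_pow,
    Finset.prod_pow_eq_pow_sum]
  rw [mul_assoc]
  rfl

lemma Phi_coeff (g : R n) (i : ℕ) :
    (Phi u g).coeff i = aeval u (homogeneousComponent i g) := by
  induction g using MvPolynomial.induction_on' with
  | monomial m c =>
    rw [Phi_monomial, Polynomial.coeff_C_mul_X_pow,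
      homogeneousComponent_of_mem (isHomogeneous_monomial c rfl : IsHomogeneous (monomial m c) _)]
    split_ifs <;> simp
  | add p q hp hq =>
    rw [map_add, map_add, Polynomial.coeff_add, hp, hq, map_add]

lemma mem_K {g : R n} :
    g ∈ K u r ↔ ∀ i, (Polynomial.X ^ r : Polynomial ℂ) ∣ aeval u (homogeneousComponent i g) := by
  unfold K
  rw [Ideal.mem_comap, Ideal.mem_span_singleton, Polynomial.C_dvd_iff_dvd_coeff]
  simp only [Phi_coeff]

lemma mem_K_of_homog {g : R n} {i : ℕ} (hg : g.IsHomogeneous i) :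
    g ∈ K u r ↔ (Polynomial.X ^ r : Polynomial ℂ) ∣ aeval u g := by
  rw [mem_K]
  constructor
  · intro h
    have := h i
    rwa [homogeneousComponent_of_mem hg, if_pos rfl] at this
  · intro h j
    rw [homogeneousComponent_of_mem hg]
    split_ifs with hj
    · exact h
    · simp

lemma K_isSub {j0 : Fin n} (h0 : u j0 = 1) : IsSubschemeIdeal (K u r) := by
  constructor
  · intro g hg i
    rw [mem_K_of_homog u r (homogeneousComponent_isHomogeneous i g)]
    exact (mem_K u r).mp hg i
  · intro g hg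
    have h1 := hg j0
    rw [mem_K]
    intro i
    unfold K at h1
    rw [Ideal.mem_comap, Ideal.mem_span_singleton, Polynomial.C_dvd_iff_dvd_coeff] at h1
    have h2 := h1 (i + 1)
    have h3 : Phi u (X j0 * g) = Polynomial.X * Phi u g := by
      rw [map_mul]
      congr 1
      unfold Phi
      rw [aeval_X, h0]
      simp
    rw [h3, Polynomial.coeff_X_mul, Phi_coeff] at h2
    exact h2

/-! ### Hilbert function of curve ideals -/

lemma finrank_map_eq {V W₁ W₂ : Type*} [AddCommGroup V] [Module ℂ V] [AddCommGroup W₁]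
    [Module ℂ W₁] [AddCommGroup W₂] [Module ℂ W₂] (α : V →ₗ[ℂ] W₁) (β : V →ₗ[ℂ] W₂)
    (P : Submodule ℂ V) (h : ∀ x ∈ P, α x = 0 ↔ β x = 0) :
    Module.finrank ℂ (P.map α) = Module.finrank ℂ (P.map β) := by
  have hα : P.map α = LinearMap.range (α.comp P.subtype) := by
    rw [LinearMap.range_comp, Submodule.range_subtype]
  have hβ : P.map β = LinearMap.range (β.comp P.subtype) := by
    rw [LinearMap.range_comp, Submodule.range_subtype]
  have hk : LinearMap.ker (α.comp P.subtype) = LinearMap.ker (β.comp P.subtype) := by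
    ext x
    simp only [LinearMap.mem_ker, LinearMap.comp_apply, Submodule.subtype_apply]
    exact h x x.2
  rw [hα, hβ]
  exact (((LinearMap.quotKerEquivRange (α.comp P.subtype)).symm.trans
    (Submodule.quotEquivOfEq _ _ hk)).trans
    (LinearMap.quotKerEquivRange (β.comp P.subtype))).finrank_eq

noncomputable def beta : R n →ₗ[ℂ] (Fin r → ℂ) where
  toFun g := fun j => (aeval u g : Polynomial ℂ).coeff j
  map_add' := by intro x y; ext j; simp
  map_smul' := by intro c x; ext j; simp

lemma hilb_K (i : ℕ) : hilb (K u r) i =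
    Module.finrank ℂ (Submodule.map (beta u r) (homogeneousSubmodule (Fin n) ℂ i)) := by
  unfold hilb
  apply finrank_map_eq
  intro g hg
  have h1 : (Ideal.Quotient.mkₐ ℂ (K u r)).toLinearMap g = 0 ↔ g ∈ K u r := by
    simp [Ideal.Quotient.eq_zero_iff_mem]
  rw [h1, mem_K_of_homog u r hg, Polynomial.X_pow_dvd_iff]
  constructor
  · intro h
    ext j
    exact h j j.2
  · intro h j hj
    exact congrFun h ⟨j, hj⟩

lemma minimal_of {j0 j1 : Fin n} (h0 : u j0 = 1) (h1 : u j1 = Polynomial.X) (hr : 1 ≤ r)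
    {w f : R n} {e : ℕ} (hw : w.IsHomogeneous e) (hXw : ∀ j, j ≠ j0 → X j * w ∈ K u r)
    (hwr : aeval u w = (Polynomial.X ^ (r - 1) : Polynomial ℂ)) (hact : act w f ≠ 0)
    (J : Ideal (R n)) (hJ : IsSubschemeIdeal J) (hKJ : K u r < J) : ¬ Apolar J f := by
  intro hap
  obtain ⟨g, hgJ, hgK⟩ := Set.exists_of_ssubset hKJ
  have hgK' : ¬ ∀ i, (Polynomial.X ^ r : Polynomial ℂ) ∣ aeval u (homogeneousComponent i g) := by
    rw [← mem_K]; exact hgK
  push Not at hgK'
  obtain ⟨i, hi⟩ := hgK'
  set g' := homogeneousComponent i g with hg'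
  have hg'J : g' ∈ J := hJ.homog g hgJ i
  have hg'h : g'.IsHomogeneous i := homogeneousComponent_isHomogeneous i g
  set p : Polynomial ℂ := aeval u g' with hp
  have hex : ∃ k, k < r ∧ p.coeff k ≠ 0 := by
    rw [Polynomial.X_pow_dvd_iff] at hi
    push Not at hi
    exact hi
  classical
  obtain ⟨hk1, hk2⟩ := Nat.find_spec hex
  set k := Nat.find hex with hk
  have hdvd : (Polynomial.X ^ k : Polynomial ℂ) ∣ p := by
    rw [Polynomial.X_pow_dvd_iff]
    intro d hd
    by_contra hne
    exact Nat.find_min hex hd ⟨lt_trans hd hk1, hne⟩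
  obtain ⟨q, hq⟩ := hdvd
  have hq0 : q.coeff 0 ≠ 0 := by
    have : p.coeff k = q.coeff 0 := by
      rw [hq]
      have := Polynomial.coeff_X_pow_mul q k 0
      rwa [zero_add] at this
    rwa [← this]
  obtain ⟨q', hq'⟩ : (Polynomial.X : Polynomial ℂ) ∣ q - Polynomial.C (q.coeff 0) := by
    rw [Polynomial.X_dvd_iff]
    simp
  set h : R n := X j1 ^ (r - 1 - k) * g' with hh
  have hhJ : h ∈ J := J.mul_mem_left _ hg'J
  have hhh : h.IsHomogeneous ((r - 1 - k) + i) := by
    apply IsHomogeneous.mul _ hg'h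
    exact isHomogeneous_X_pow j1 (r - 1 - k)
  have haevh : (aeval u h : Polynomial ℂ) = Polynomial.X ^ (r - 1) * q := by
    rw [hh, map_mul, map_pow, aeval_X, h1, ← hp, hq, ← mul_assoc, ← pow_add]
    congr 2
    omega
  set z : R n := X j0 ^ e * h - C (q.coeff 0) * (X j0 ^ ((r - 1 - k) + i) * w) with hz
  have hzh : z.IsHomogeneous (e + ((r - 1 - k) + i)) := by
    apply IsHomogeneous.sub
    · exact (isHomogeneous_X_pow j0 e).mul hhh
    · apply IsHomogeneous.C_mul
      have := (isHomogeneous_X_pow (R := ℂ) j0 ((r - 1 - k) + i)).mul hw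
      have h5 : r - 1 - k + i + e = e + (r - 1 - k + i) := by ring
      rwa [h5] at this
  have hzK : z ∈ K u r := by
    have hze : (aeval u z : Polynomial ℂ) = Polynomial.X ^ (r - 1) * q -
        (algebraMap ℂ (Polynomial ℂ)) (q.coeff 0) * Polynomial.X ^ (r - 1) := by
      rw [hz, map_sub, map_mul _ (X j0 ^ e) h, haevh, map_mul, map_mul, hwr, map_pow,
        map_pow, aeval_X, h0, one_pow, one_pow, one_mul, one_mul, aeval_C]
    rw [mem_K_of_homog u r hzh, hze]
    refine ⟨q', ?_⟩
    have : q = Polynomial.C (q.coeff 0) + Polynomial.X * q' := by rw [← hq']; ring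
    have hr' : (Polynomial.X : Polynomial ℂ) ^ r = Polynomial.X ^ (r - 1) * Polynomial.X := by
      rw [← pow_succ]; congr 1; omega
    calc Polynomial.X ^ (r - 1) * q - (algebraMap ℂ (Polynomial ℂ)) (q.coeff 0)
          * Polynomial.X ^ (r - 1)
        = Polynomial.X ^ (r - 1) * (q - Polynomial.C (q.coeff 0)) := by
          rw [Polynomial.algebraMap_eq]; ring
      _ = Polynomial.X ^ (r - 1) * (Polynomial.X * q') := by rw [hq']
      _ = Polynomial.X ^ r * q' := by rw [hr']; ring
  have hmem : X j0 ^ ((r - 1 - k) + i) * w ∈ J := by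
    have h3 : C (q.coeff 0) * (X j0 ^ ((r - 1 - k) + i) * w) ∈ J := by
      have : C (q.coeff 0) * (X j0 ^ ((r - 1 - k) + i) * w) = X j0 ^ e * h - z := by
        rw [hz]; ring
      rw [this]
      exact J.sub_mem (J.mul_mem_left _ hhJ) (hKJ.le hzK)
    have h4 := J.mul_mem_left (C (q.coeff 0)⁻¹) h3
    rwa [← mul_assoc, ← C_mul, inv_mul_cancel₀ hq0, C_1, one_mul] at h4
  have hdesc : ∀ N : ℕ, X j0 ^ N * w ∈ J → w ∈ J := by
    intro N
    induction N with
    | zero => intro hN; simpa using hN
    | succ N ih =>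
      intro hN
      apply ih
      apply hJ.sat
      intro j
      by_cases hj : j = j0
      · rw [hj]
        have : X j0 * (X j0 ^ N * w) = X j0 ^ (N + 1) * w := by ring
        rwa [this]
      · have : X j * (X j0 ^ N * w) = X j0 ^ N * (X j * w) := by ring
        rw [this]
        exact J.mul_mem_left _ (hKJ.le (hXw j hj))
  exact hact (hap w (hdesc _ hmem))

/-! ### dimension of graded pieces -/

lemma hilb_eq_of_le {j0 j1 : Fin n} (h0 : u j0 = 1) (h1 : u j1 = Polynomial.X) {i : ℕ}
    (hi : r ≤ i) : hilb (K u r) i = r := by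
  rw [hilb_K]
  have : Submodule.map (beta u r) (homogeneousSubmodule (Fin n) ℂ i) = ⊤ := by
    rw [eq_top_iff]
    intro v _
    rw [Submodule.mem_map]
    refine ⟨∑ j : Fin r, C (v j) * (X j0 ^ (i - j) * X j1 ^ (j : ℕ)), ?_, ?_⟩
    · rw [mem_homogeneousSubmodule]
      apply IsHomogeneous.sum
      intro j _
      apply IsHomogeneous.C_mul
      have := (isHomogeneous_X_pow (R := ℂ) j0 (i - j)).mul
        (isHomogeneous_X_pow (R := ℂ) j1 (j : ℕ))
      have h2 : i - (j : ℕ) + j = i := by
        have := j.2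
        omega
      rwa [h2] at this
    · ext j'
      change (aeval u (∑ j : Fin r, C (v j) * (X j0 ^ (i - j) * X j1 ^ (j : ℕ))) :
        Polynomial ℂ).coeff j' = v j'
      rw [map_sum, Polynomial.finsetSum_coeff, Finset.sum_eq_single j']
      · rw [map_mul, map_mul, map_pow, map_pow, aeval_X, aeval_X, h0, h1, aeval_C]
        simp
      · intro j _ hj
        rw [map_mul, map_mul, map_pow, map_pow, aeval_X, aeval_X, h0, h1, aeval_C]
        simp only [Polynomial.algebraMap_eq, one_pow, one_mul, Polynomial.coeff_C_mul,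
          Polynomial.coeff_X_pow]
        rw [if_neg]
        · simp
        · intro h; apply hj; exact Fin.ext h.symm
      · simp
  rw [this, finrank_top, Module.finrank_fin_fun]

lemma hilb_ne {i : ℕ} (j : Fin r)
    (h : ∀ g : R n, g.IsHomogeneous i → (aeval u g : Polynomial ℂ).coeff j = 0) :
    hilb (K u r) i ≠ r := by
  rw [hilb_K]
  have h1 : Submodule.map (beta u r) (homogeneousSubmodule (Fin n) ℂ i) ≠ ⊤ := by
    intro htop
    have : (Pi.single j 1 : Fin r → ℂ) ∈
        Submodule.map (beta u r) (homogeneousSubmodule (Fin n) ℂ i) := by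
      rw [htop]; trivial
    obtain ⟨g, hg, hg2⟩ := this
    have h2 := congrFun hg2 j
    have h3 := h g hg
    change (aeval u g : Polynomial ℂ).coeff j = _ at h2
    rw [h3] at h2
    simp at h2
  have := Submodule.finrank_lt (lt_top_iff_ne_top.mpr h1 |>.ne)
  rw [Module.finrank_fin_fun] at this
  exact this.ne

end curve

/-! ### The case `n ≥ 3` -/

noncomputable def uu (k s : ℕ) : Fin (k + 3) → Polynomial ℂ :=
  Fin.cons 1 (Fin.cons Polynomial.X (Fin.cons (Polynomial.X ^ s) (fun _ => 0)))

lemma uu_zero (k s : ℕ) : uu k s 0 = 1 := rfl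

lemma uu_one (k s : ℕ) : uu k s (Fin.succ 0) = Polynomial.X := rfl

lemma uu_two (k s : ℕ) : uu k s (Fin.succ (Fin.succ 0)) = Polynomial.X ^ s := rfl

lemma uu_three (k s : ℕ) (i : Fin k) : uu k s i.succ.succ.succ = 0 := rfl

lemma coeff_uu_monomial (k s : ℕ) (m : Fin (k + 3) →₀ ℕ) (c : ℂ) (j : ℕ) :
    (aeval (uu k s) (monomial m c) : Polynomial ℂ).coeff j =
      if (∀ i : Fin k, m i.succ.succ.succ = 0) ∧ m (Fin.succ 0) + s * m (Fin.succ (Fin.succ 0)) = j
      then c else 0 := by
  rw [aeval_monomial, Finsupp.prod_fintype _ _ (by simp), Fin.prod_univ_succ, Fin.prod_univ_succ,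
    Fin.prod_univ_succ]
  simp only [uu, Fin.cons_zero, Fin.cons_succ, one_pow, one_mul, Polynomial.algebraMap_eq,
    ← pow_mul, ← mul_assoc]
  by_cases h : ∀ i : Fin k, m i.succ.succ.succ = 0
  · have : ∏ i : Fin k, (0 : Polynomial ℂ) ^ m i.succ.succ.succ = 1 := by
      apply Finset.prod_eq_one
      intro i _
      rw [h i, pow_zero]
    rw [this, mul_one, mul_assoc, ← pow_add, Polynomial.coeff_C_mul_X_pow]
    simp only [h, implies_true, true_and]
    by_cases hj : m (Fin.succ 0) + s * m (Fin.succ (Fin.succ 0)) = j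
    · rw [if_pos hj, if_pos hj.symm]
    · rw [if_neg hj, if_neg (fun h => hj h.symm)]
  · have h' := h
    push Not at h
    obtain ⟨i, hi⟩ := h
    have : ∏ i : Fin k, (0 : Polynomial ℂ) ^ m i.succ.succ.succ = 0 := by
      apply Finset.prod_eq_zero (Finset.mem_univ i)
      rw [zero_pow hi]
    rw [this, mul_zero, Polynomial.coeff_zero, if_neg]
    rintro ⟨h1, _⟩
    exact h' h1

lemma coeff_uu (k s : ℕ) (g : R (k + 3)) (j : ℕ) :
    (aeval (uu k s) g : Polynomial ℂ).coeff j =
      ∑ m ∈ g.support, if (∀ i : Fin k, m i.succ.succ.succ = 0) ∧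
        m (Fin.succ 0) + s * m (Fin.succ (Fin.succ 0)) = j then coeff m g else 0 := by
  conv_lhs => rw [g.as_sum, map_sum, Polynomial.finsetSum_coeff]
  simp only [coeff_uu_monomial]

lemma degree_uu (k : ℕ) (m : Fin (k + 3) →₀ ℕ) (h : ∀ i : Fin k, m i.succ.succ.succ = 0) :
    m.degree = m 0 + (m (Fin.succ 0) + m (Fin.succ (Fin.succ 0))) := by
  rw [Finsupp.degree_eq_sum, Fin.sum_univ_succ, Fin.sum_univ_succ, Fin.sum_univ_succ]
  simp [h]

/-- the scheme for `n ≥ 3` -/
noncomputable def Z3 (k r : ℕ) (hr : 1 ≤ r) : ZeroDimScheme (k + 3) where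
  ideal := K (uu k (r - 1)) r
  isSub := K_isSub (uu k (r - 1)) r (j0 := 0) (uu_zero _ _)
  deg := r
  deg_pos := hr
  hilb_eq := by
    filter_upwards [Filter.eventually_ge_atTop r] with i hi
    exact hilb_eq_of_le (uu k (r - 1)) r (j0 := 0) (j1 := Fin.succ 0) (uu_zero _ _)
      (uu_one _ _) hi

lemma Z3_reg (k r : ℕ) (hr : 2 ≤ r) : r - 2 ≤ (Z3 k r (by omega)).reg := by
  unfold ZeroDimScheme.reg
  apply le_csInf
  · refine ⟨r, ?_⟩
    exact hilb_eq_of_le (uu k (r - 1)) r (j0 := 0) (j1 := Fin.succ 0) (uu_zero _ _)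
      (uu_one _ _) le_rfl
  · intro i hi
    by_contra hlt
    push Not at hlt
    refine hilb_ne (uu k (r - 1)) r (i := i) ⟨r - 2, by omega⟩ ?_ hi
    intro g hg
    rw [coeff_uu]
    apply Finset.sum_eq_zero
    intro m hm
    rw [if_neg]
    rintro ⟨h1, h2⟩
    have h3 : m.degree = i := by
      by_contra hne
      exact (mem_support_iff.mp hm) (hg.coeff_eq_zero hne)
    rw [degree_uu k m h1] at h3
    have h4 : m (Fin.succ 0) + (r - 1) * m (Fin.succ (Fin.succ 0)) = r - 2 := h2
    rcases Nat.eq_zero_or_pos (m (Fin.succ (Fin.succ 0))) with h5 | h5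
    · rw [h5, mul_zero] at h4
      omega
    · have : (r - 1) * 1 ≤ (r - 1) * m (Fin.succ (Fin.succ 0)) := Nat.mul_le_mul_left _ h5
      omega

noncomputable def b3 (k d : ℕ) : Fin (k + 3) →₀ ℕ :=
  Finsupp.single 0 (d - 1) + Finsupp.single (Fin.succ (Fin.succ 0)) 1

lemma b3_zero (k d : ℕ) : b3 k d 0 = d - 1 := by
  have h : (Fin.succ (Fin.succ 0) : Fin (k + 3)) ≠ 0 := Fin.succ_ne_zero _
  rw [b3, Finsupp.add_apply, Finsupp.single_eq_same, Finsupp.single_apply, if_neg h, add_zero]

lemma b3_one (k d : ℕ) : b3 k d (Fin.succ 0) = 0 := by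
  have h : (Fin.succ (Fin.succ 0) : Fin (k + 3)) ≠ Fin.succ 0 :=
    fun h => Fin.succ_ne_zero _ (Fin.succ_injective _ h)
  have h' : (0 : Fin (k + 3)) ≠ Fin.succ 0 := fun h => Fin.succ_ne_zero _ h.symm
  rw [b3, Finsupp.add_apply, Finsupp.single_apply, Finsupp.single_apply, if_neg h, if_neg h',
    add_zero]

lemma b3_two (k d : ℕ) : b3 k d (Fin.succ (Fin.succ 0)) = 1 := by
  have h' : (0 : Fin (k + 3)) ≠ Fin.succ (Fin.succ 0) := fun h => Fin.succ_ne_zero _ h.symm
  rw [b3, Finsupp.add_apply, Finsupp.single_apply, Finsupp.single_eq_same, if_neg h', zero_add]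

lemma b3_three (k d : ℕ) (i : Fin k) : b3 k d i.succ.succ.succ = 0 := by
  have h : (Fin.succ (Fin.succ 0) : Fin (k + 3)) ≠ i.succ.succ.succ := by
    intro h
    exact Fin.succ_ne_zero _ (Fin.succ_injective _ (Fin.succ_injective _ h)).symm
  have h' : (0 : Fin (k + 3)) ≠ i.succ.succ.succ := fun h => Fin.succ_ne_zero _ h.symm
  rw [b3, Finsupp.add_apply, Finsupp.single_apply, Finsupp.single_apply, if_neg h, if_neg h',
    add_zero]

lemma Z3_irr (k r d : ℕ) (hd : 1 ≤ d) (hr : d + 2 ≤ r) :
    Irredundant (Z3 k r (by omega)) (monomial (b3 k d) 1) := by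
  constructor
  · intro g hg
    change g ∈ K (uu k (r - 1)) r at hg
    apply act_monomial_eq_zero
    intro a ha
    rw [mem_K] at hg
    have h1 := hg a.degree
    rw [Polynomial.X_pow_dvd_iff] at h1
    have hb0 : b3 k d 0 = d - 1 := b3_zero k d
    have hb1 : b3 k d (Fin.succ 0) = 0 := b3_one k d
    have hb2 : b3 k d (Fin.succ (Fin.succ 0)) = 1 := b3_two k d
    have hb3 : ∀ i : Fin k, b3 k d i.succ.succ.succ = 0 := b3_three k d
    have ha0 := ha 0
    have ha1 := ha (Fin.succ 0)
    have ha2 := ha (Fin.succ (Fin.succ 0))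
    have ha3 : ∀ i : Fin k, a i.succ.succ.succ = 0 := by
      intro i
      have := ha i.succ.succ.succ
      rw [hb3 i] at this
      omega
    rw [hb0] at ha0
    rw [hb1] at ha1
    rw [hb2] at ha2
    have hadeg := degree_uu k a ha3
    have h2 := h1 (a (Fin.succ 0) + (r - 1) * a (Fin.succ (Fin.succ 0))) (by
      have : (r - 1) * a (Fin.succ (Fin.succ 0)) ≤ (r - 1) * 1 := Nat.mul_le_mul_left _ ha2
      omega)
    rw [coeff_uu, Finset.sum_eq_single a] at h2
    · rw [if_pos ⟨ha3, rfl⟩, coeff_homogeneousComponent, if_pos rfl] at h2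
      exact h2
    · intro m hm hma
      rw [if_neg]
      rintro ⟨h3, h4⟩
      apply hma
      have h5 : m.degree = a.degree := by
        by_contra hne
        exact (mem_support_iff.mp hm)
          ((homogeneousComponent_isHomogeneous a.degree g).coeff_eq_zero hne)
      have hmdeg := degree_uu k m h3
      have h6 : m (Fin.succ 0) = a (Fin.succ 0) ∧
          m (Fin.succ (Fin.succ 0)) = a (Fin.succ (Fin.succ 0)) := by
        have ha1' : a (Fin.succ 0) = 0 := by omega
        rw [ha1'] at h4 hadeg ⊢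
        rcases Nat.eq_zero_or_pos (a (Fin.succ (Fin.succ 0))) with h7 | h7
        · rw [h7] at h4 ⊢
          rcases Nat.eq_zero_or_pos (m (Fin.succ (Fin.succ 0))) with h8 | h8
          · rw [h8] at h4 ⊢
            constructor
            · omega
            · rfl
          · have : (r - 1) * 1 ≤ (r - 1) * m (Fin.succ (Fin.succ 0)) := Nat.mul_le_mul_left _ h8
            omega
        · have h7' : a (Fin.succ (Fin.succ 0)) = 1 := by omega
          rw [h7'] at h4 ⊢
          rcases Nat.eq_zero_or_pos (m (Fin.succ (Fin.succ 0))) with h8 | h8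
          · rw [h8] at h4
            omega
          · rcases Nat.lt_or_ge 1 (m (Fin.succ (Fin.succ 0))) with h9 | h9
            · have : (r - 1) * 2 ≤ (r - 1) * m (Fin.succ (Fin.succ 0)) :=
                Nat.mul_le_mul_left _ h9
              omega
            · have h10 : m (Fin.succ (Fin.succ 0)) = 1 := by omega
              rw [h10] at h4 ⊢
              constructor
              · omega
              · rfl
      have h11 : m 0 = a 0 := by omega
      ext i
      refine Fin.cases h11 (fun i => ?_) i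
      refine Fin.cases h6.1 (fun i => ?_) i
      refine Fin.cases h6.2 (fun i => ?_) i
      rw [h3 i, ha3 i]
    · intro ha'
      rw [if_pos ⟨ha3, rfl⟩]
      exact notMem_support_iff.mp ha'
  · have hw : IsHomogeneous (X (Fin.succ (Fin.succ 0)) : R (k + 3)) 1 :=
      isHomogeneous_X _ _
    refine minimal_of (uu k (r - 1)) r (j0 := 0) (j1 := Fin.succ 0) (uu_zero _ _)
      (uu_one _ _) (by omega) hw ?_ ?_ ?_
    · intro j hj
      rw [mem_K_of_homog (uu k (r - 1)) r ((isHomogeneous_X ℂ j).mul hw), map_mul, aeval_X,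
        aeval_X]
      have h2 : uu k (r - 1) (Fin.succ (Fin.succ 0)) = Polynomial.X ^ (r - 1) := uu_two _ _
      rw [h2]
      revert hj
      refine Fin.cases (fun h => absurd rfl h) (fun j _ => ?_) j
      refine Fin.cases ?_ (fun j => ?_) j
      · rw [uu_one, ← pow_succ']
        exact pow_dvd_pow _ (by omega)
      · refine Fin.cases ?_ (fun j => ?_) j
        · rw [h2, ← pow_add]
          exact pow_dvd_pow _ (by omega)
        · rw [uu_three, zero_mul]
          exact dvd_zero _
    · rw [aeval_X, uu_two]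
    · apply act_monomial_ne_zero
      intro i
      simp [b3]

lemma M_ge_three (k d : ℕ) (hd : 1 ≤ d) : M (k + 3) d = ⊤ := by
  rw [ENat.eq_top_iff_forall_ge]
  intro m
  have hr : d + 2 ≤ m + d + 2 := by omega
  refine le_trans ?_ (le_sSup (a := ((Z3 k (m + d + 2) (by omega)).reg : ℕ∞)) ?_)
  · have := Z3_reg k (m + d + 2) (by omega)
    exact_mod_cast (show m ≤ (Z3 k (m + d + 2) (by omega)).reg by omega)
  · refine ⟨monomial (b3 k d) 1, Z3 k (m + d + 2) (by omega), ?_, ?_, Z3_irr k _ d hd hr, rfl⟩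
    · simp
    · apply isHomogeneous_monomial
      rw [degree_uu]
      · rw [b3_zero, b3_one, b3_two]
        omega
      · exact b3_three k d

/-! ### The case `n = 2`, lower bound -/

noncomputable def u2 : Fin 2 → Polynomial ℂ := ![1, Polynomial.X]

lemma coeff_u2_monomial (m : Fin 2 →₀ ℕ) (c : ℂ) (j : ℕ) :
    (aeval u2 (monomial m c) : Polynomial ℂ).coeff j = if m 1 = j then c else 0 := by
  rw [aeval_monomial, Finsupp.prod_fintype _ _ (by simp), Fin.prod_univ_two]
  simp only [u2, Matrix.cons_val_zero, Matrix.cons_val_one, one_pow, one_mul,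
    Polynomial.algebraMap_eq]
  rw [Polynomial.coeff_C_mul_X_pow]
  by_cases hj : m 1 = j
  · rw [if_pos hj, if_pos hj.symm]
  · rw [if_neg hj, if_neg (fun h => hj h.symm)]

lemma coeff_u2 (g : R 2) (j : ℕ) :
    (aeval u2 g : Polynomial ℂ).coeff j =
      ∑ m ∈ g.support, if m 1 = j then coeff m g else 0 := by
  conv_lhs => rw [g.as_sum, map_sum, Polynomial.finsetSum_coeff]
  simp only [coeff_u2_monomial]

lemma degree_two (m : Fin 2 →₀ ℕ) : m.degree = m 0 + m 1 := by
  rw [Finsupp.degree_eq_sum, Fin.sum_univ_two]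

lemma coeff_u2_homog {g : R 2} {i : ℕ} (hg : g.IsHomogeneous i) (m : Fin 2 →₀ ℕ)
    (hm : m.degree = i) : (aeval u2 g : Polynomial ℂ).coeff (m 1) = coeff m g := by
  rw [coeff_u2, Finset.sum_eq_single m]
  · rw [if_pos rfl]
  · intro m' hm' hne
    rw [if_neg]
    intro h
    apply hne
    have h1 : m'.degree = i := by
      by_contra hne
      exact (mem_support_iff.mp hm') (hg.coeff_eq_zero hne)
    rw [degree_two] at h1 hm
    ext j
    fin_cases j
    · change m' 0 = m 0
      omega
    · exact h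
  · intro h
    rw [if_pos rfl]
    exact notMem_support_iff.mp h

lemma coeff_u2_homog_gt {g : R 2} {i : ℕ} (hg : g.IsHomogeneous i) {j : ℕ} (hj : i < j) :
    (aeval u2 g : Polynomial ℂ).coeff j = 0 := by
  rw [coeff_u2]
  apply Finset.sum_eq_zero
  intro m hm
  rw [if_neg]
  intro h
  have h1 : m.degree = i := by
    by_contra hne
    exact (mem_support_iff.mp hm) (hg.coeff_eq_zero hne)
  rw [degree_two] at h1
  omega

lemma K_u2_coeff {g : R 2} {r : ℕ} (hg : g ∈ K u2 r) {m : Fin 2 →₀ ℕ} (hm : m 1 < r) :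
    coeff m g = 0 := by
  rw [mem_K] at hg
  have h1 := hg m.degree
  rw [Polynomial.X_pow_dvd_iff] at h1
  have h2 := h1 (m 1) hm
  rw [coeff_u2_homog (homogeneousComponent_isHomogeneous _ _) m rfl, coeff_homogeneousComponent,
    if_pos rfl] at h2
  exact h2

noncomputable def Z2 (r : ℕ) (hr : 1 ≤ r) : ZeroDimScheme 2 where
  ideal := K u2 r
  isSub := K_isSub u2 r (j0 := 0) rfl
  deg := r
  deg_pos := hr
  hilb_eq := by
    filter_upwards [Filter.eventually_ge_atTop r] with i hi
    exact hilb_eq_of_le u2 r (j0 := 0) (j1 := 1) rfl rfl hi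

lemma Z2_reg (d : ℕ) : d ≤ (Z2 (d + 1) (by omega)).reg := by
  unfold ZeroDimScheme.reg
  apply le_csInf
  · refine ⟨d + 1, ?_⟩
    exact hilb_eq_of_le u2 (d + 1) (j0 := 0) (j1 := 1) rfl rfl le_rfl
  · intro i hi
    by_contra hlt
    push Not at hlt
    refine hilb_ne u2 (d + 1) (i := i) ⟨d, by omega⟩ ?_ hi
    intro g hg
    exact coeff_u2_homog_gt hg hlt

lemma Z2_irr (d : ℕ) :
    Irredundant (Z2 (d + 1) (by omega)) (monomial (Finsupp.single 1 d) 1) := by
  constructor
  · intro g hg
    change g ∈ K u2 (d + 1) at hg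
    apply act_monomial_eq_zero
    intro a ha
    apply K_u2_coeff hg
    have := ha 1
    rw [Finsupp.single_eq_same] at this
    omega
  · have hX : (monomial (Finsupp.single 1 d) 1 : R 2) = X 1 ^ d := by
      rw [X_pow_eq_monomial]
    have hw : IsHomogeneous (X 1 ^ d : R 2) d := isHomogeneous_X_pow _ _
    refine minimal_of u2 (d + 1) (j0 := 0) (j1 := 1) rfl rfl (by omega) hw ?_ ?_ ?_
    · intro j hj
      have hj1 : j = 1 := by
        fin_cases j
        · exact absurd rfl hj
        · rfl
      rw [hj1, mem_K_of_homog u2 (d + 1) ((isHomogeneous_X ℂ 1).mul hw), map_mul, map_pow,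
        aeval_X, ← pow_succ']
      exact dvd_rfl
    · rw [map_pow, aeval_X]
      rfl
    · rw [← hX]
      exact act_monomial_ne_zero le_rfl

lemma M_two_ge (d : ℕ) : (d : ℕ∞) ≤ M 2 d := by
  refine le_trans ?_ (le_sSup (a := ((Z2 (d + 1) (by omega)).reg : ℕ∞)) ?_)
  · exact_mod_cast Z2_reg d
  · refine ⟨monomial (Finsupp.single 1 d) 1, Z2 (d + 1) (by omega), ?_, ?_, Z2_irr d, rfl⟩
    · simp
    · apply isHomogeneous_monomial
      simp

/-! ### The case `n = 2`, upper bound -/

lemma hc_mul {n : ℕ} {l : R n} {e : ℕ} (hl : l.IsHomogeneous e) (q : R n) (k : ℕ) :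
    homogeneousComponent (e + k) (l * q) = l * homogeneousComponent k q := by
  induction q using MvPolynomial.induction_on' with
  | monomial m c =>
    have h1 : IsHomogeneous (monomial m c : R n) m.degree := isHomogeneous_monomial c rfl
    rw [homogeneousComponent_of_mem (hl.mul h1), homogeneousComponent_of_mem h1]
    by_cases h : k = m.degree
    · rw [if_pos h, if_pos (by rw [h])]
    · rw [if_neg h, if_neg (by omega), mul_zero]
  | add p q hp hq =>
    rw [mul_add, map_add, map_add, hp, hq, mul_add]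

noncomputable def ell (b : Fin 2 → ℂ) : R 2 := C (b 1) * X 0 - C (b 0) * X 1

lemma ell_homog (b : Fin 2 → ℂ) : (ell b).IsHomogeneous 1 := by
  unfold ell
  exact (isHomogeneous_C_mul_X _ _).sub (isHomogeneous_C_mul_X _ _)

lemma ell_ne_zero {b : Fin 2 → ℂ} (hb : b ≠ 0) : ell b ≠ 0 := by
  intro h
  apply hb
  have h1 := congrArg (eval ![1, 0]) h
  have h2 := congrArg (eval ![0, 1]) h
  simp [ell] at h1 h2
  ext j
  fin_cases j
  · exact h2
  · exact h1

lemma scale_aux {p : R 2} {k : ℕ} (hp : p.IsHomogeneous k) (b : Fin 2 → ℂ) (j : Fin 2)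
    (hj : b j ≠ 0) :
    aeval (fun i => C (b i / b j) * X j : Fin 2 → R 2) p * C (b j ^ k)
      = C (eval b p) * X j ^ k := by
  have h1 : aeval (fun i => C (b i / b j) * X j : Fin 2 → R 2) p
      = ∑ m ∈ p.support, C (coeff m p) * ∏ i, (C (b i / b j) * X j : R 2) ^ m i := by
    rw [aeval_def, eval₂_eq']
    rfl
  have h2 : eval b p = ∑ m ∈ p.support, coeff m p * ∏ i, b i ^ m i := eval_eq' b p
  rw [h1, h2, map_sum, Finset.sum_mul, Finset.sum_mul]
  apply Finset.sum_congr rfl
  intro m hm
  have hmk : m 0 + m 1 = k := by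
    rw [← degree_two]
    by_contra hne
    exact (mem_support_iff.mp hm) (hp.coeff_eq_zero hne)
  rw [Fin.prod_univ_two, Fin.prod_univ_two, ← hmk, pow_add, pow_add]
  have e0 : (C (b 0) : R 2) = C (b 0 / b j) * C (b j) := by
    rw [← C_mul, div_mul_cancel₀ _ hj]
  have e1 : (C (b 1) : R 2) = C (b 1 / b j) * C (b j) := by
    rw [← C_mul, div_mul_cancel₀ _ hj]
  simp only [map_mul, map_pow, e0, e1]
  ring

lemma exists_factor {p : R 2} {k : ℕ} (hp : p.IsHomogeneous (k + 1)) {b : Fin 2 → ℂ}
    (hb : b ≠ 0) (h : eval b p = 0) : ∃ q : R 2, q.IsHomogeneous k ∧ p = ell b * q := by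
  obtain ⟨j, hj⟩ : ∃ j, b j ≠ 0 := by
    by_contra hcon
    push Not at hcon
    exact hb (funext hcon)
  have hs : aeval (fun i => C (b i / b j) * X j : Fin 2 → R 2) p = 0 := by
    have h1 := scale_aux hp b j hj
    rw [h, C_0, zero_mul] at h1
    have h2 : (C (b j ^ (k + 1)) : R 2) ≠ 0 := by
      rw [Ne, C_eq_zero]
      exact pow_ne_zero _ hj
    exact (mul_eq_zero.mp h1).resolve_right h2
  have hmem : p ∈ Ideal.span {ell b} := by
    have hhom : (Ideal.Quotient.mkₐ ℂ (Ideal.span {ell b})) =
        (Ideal.Quotient.mkₐ ℂ (Ideal.span {ell b})).comp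
          (aeval (fun i => C (b i / b j) * X j : Fin 2 → R 2)) := by
      apply MvPolynomial.algHom_ext
      intro i
      rw [AlgHom.comp_apply, aeval_X]
      change Ideal.Quotient.mk _ _ = Ideal.Quotient.mk _ _
      rw [Ideal.Quotient.eq, Ideal.mem_span_singleton]
      by_cases hij : i = j
      · rw [hij, div_self hj]
        simp
      · unfold ell
        fin_cases i <;> fin_cases j
        · exact absurd rfl hij
        · refine ⟨C (b 1)⁻¹, ?_⟩
          change X 0 - C (b 0 / b 1) * X 1 = (C (b 1) * X 0 - C (b 0) * X 1) * C (b 1)⁻¹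
          have hj' : b 1 ≠ 0 := hj
          have e1 : (C (b 1) : R 2) * C (b 1)⁻¹ = 1 := by
            rw [← C_mul, mul_inv_cancel₀ hj', C_1]
          have e2 : (C (b 0 / b 1) : R 2) = C (b 0) * C (b 1)⁻¹ := by
            rw [← C_mul, div_eq_mul_inv]
          rw [e2]
          linear_combination (-(X 0 : R 2)) * e1
        · refine ⟨-C (b 0)⁻¹, ?_⟩
          change X 1 - C (b 1 / b 0) * X 0 = (C (b 1) * X 0 - C (b 0) * X 1) * (-C (b 0)⁻¹)
          have hj' : b 0 ≠ 0 := hj
          have e1 : (C (b 0) : R 2) * C (b 0)⁻¹ = 1 := by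
            rw [← C_mul, mul_inv_cancel₀ hj', C_1]
          have e2 : (C (b 1 / b 0) : R 2) = C (b 1) * C (b 0)⁻¹ := by
            rw [← C_mul, div_eq_mul_inv]
          rw [e2]
          linear_combination (-(X 1 : R 2)) * e1
        · exact absurd rfl hij
    have h3 := congrArg (fun F => F p) hhom
    simp only [AlgHom.comp_apply, hs, map_zero] at h3
    exact Ideal.Quotient.eq_zero_iff_mem.mp h3
  rw [Ideal.mem_span_singleton] at hmem
  obtain ⟨q, hq⟩ := hmem
  refine ⟨homogeneousComponent k q, homogeneousComponent_isHomogeneous k q, ?_⟩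
  have h4 := hc_mul (ell_homog b) q k
  rw [← hq, homogeneousComponent_of_mem hp, if_pos (by ring)] at h4
  exact h4

lemma exists_root {g : R 2} {e : ℕ} (hg : g.IsHomogeneous (e + 1)) :
    ∃ b : Fin 2 → ℂ, b ≠ 0 ∧ eval b g = 0 := by
  set G : Polynomial ℂ := aeval u2 g with hG
  by_cases hd : G.degree = 0 ∨ G = 0
  · refine ⟨![0, 1], by simp, ?_⟩
    have h1 : G.coeff (e + 1) = 0 := by
      rcases hd with hd | hd
      · apply Polynomial.coeff_eq_zero_of_degree_lt
        rw [hd]
        exact_mod_cast Nat.succ_pos e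
      · rw [hd, Polynomial.coeff_zero]
    rw [eval_eq']
    apply Finset.sum_eq_zero
    intro m hm
    have hme : m.degree = e + 1 := by
      by_contra hne
      exact (mem_support_iff.mp hm) (hg.coeff_eq_zero hne)
    rw [Fin.prod_univ_two]
    by_cases hm0 : m 0 = 0
    · have h2 : m 1 = e + 1 := by
        rw [degree_two] at hme
        omega
      have h3 := coeff_u2_homog hg m hme
      rw [h2, ← hG, h1] at h3
      rw [← h3, zero_mul]
    · simp [hm0]
  · push Not at hd
    obtain ⟨x, hx⟩ := IsAlgClosed.exists_root G hd.1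
    refine ⟨![1, x], ?_, ?_⟩
    · intro h
      have := congrFun h 0
      simp at this
    · rw [Polynomial.IsRoot, hG] at hx
      have h1 : Polynomial.eval x (aeval u2 g) = eval ![1, x] g := by
        have : (Polynomial.aeval x).comp (aeval u2 : R 2 →ₐ[ℂ] Polynomial ℂ)
            = (aeval ![1, x] : R 2 →ₐ[ℂ] ℂ) := by
          apply MvPolynomial.algHom_ext
          intro i
          fin_cases i
          · simp [u2]
          · simp [u2]
        have h2 := congrArg (fun F => F g) this
        simp only [AlgHom.comp_apply] at h2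
        rw [Polynomial.coe_aeval_eq_eval] at h2
        rw [h2]
        exact DFunLike.congr_fun (coe_aeval_eq_eval _) g
      rw [← h1]
      exact hx

lemma sat_pow {n : ℕ} {I : Ideal (R n)} (hI : IsSubschemeIdeal I) (k : ℕ) :
    ∀ h : R n, (∀ μ : R n, μ.IsHomogeneous k → μ * h ∈ I) → h ∈ I := by
  induction k with
  | zero =>
    intro h hh
    have := hh 1 (isHomogeneous_one _ _)
    rwa [one_mul] at this
  | succ k ih =>
    intro h hh
    apply hI.sat
    intro j
    apply ih
    intro μ hμ
    have : μ * (X j * h) = (μ * X j) * h := by ring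
    rw [this]
    exact hh _ (hμ.mul (isHomogeneous_X _ _))

lemma ell_inj {I : Ideal (R 2)} (hI : IsSubschemeIdeal I) {g : R 2} {e : ℕ} (hgI : g ∈ I)
    (hg : g.IsHomogeneous (e + 1)) {b : Fin 2 → ℂ} (hb : b ≠ 0) (hgb : eval b g ≠ 0)
    {h : R 2} (hh : ell b * h ∈ I) : h ∈ I := by
  apply sat_pow hI (e + 1)
  intro μ hμ
  obtain ⟨q, _, hq⟩ := exists_factor (hμ.sub (hg.C_mul (eval b μ / eval b g))) hb (by
    simp only [map_sub, map_mul, eval_C]
    field_simp
    ring)
  have : μ * h = q * (ell b * h) + (C (eval b μ / eval b g) * h) * g := by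
    linear_combination h * hq
  rw [this]
  exact I.add_mem (I.mul_mem_left _ hh) (I.mul_mem_left _ hgI)

lemma ell_surj {I : Ideal (R 2)} {g : R 2} {e : ℕ} (hgI : g ∈ I)
    (hg : g.IsHomogeneous (e + 1)) {b : Fin 2 → ℂ} (hb : b ≠ 0) (hgb : eval b g ≠ 0)
    {i : ℕ} (hi : e ≤ i) {p : R 2} (hp : p.IsHomogeneous (i + 1)) :
    ∃ q : R 2, q.IsHomogeneous i ∧ p - ell b * q ∈ I := by
  obtain ⟨j, hj⟩ : ∃ j, b j ≠ 0 := by
    by_contra hcon
    push Not at hcon
    exact hb (funext hcon)
  have hμ : (X j ^ (i - e) * g : R 2).IsHomogeneous (i + 1) := by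
    have := (isHomogeneous_X_pow (R := ℂ) j (i - e)).mul hg
    have h2 : i - e + (e + 1) = i + 1 := by omega
    rwa [h2] at this
  have hμb : eval b (X j ^ (i - e) * g) ≠ 0 := by
    rw [map_mul, map_pow, eval_X]
    exact mul_ne_zero (pow_ne_zero _ hj) hgb
  obtain ⟨q, hq1, hq⟩ := exists_factor
    (hp.sub (hμ.C_mul (eval b p / eval b (X j ^ (i - e) * g)))) hb (by
    rw [map_sub, map_mul (eval b) (C _), eval_C, div_mul_cancel₀ _ hμb, sub_self])
  refine ⟨q, hq1, ?_⟩
  have : p - ell b * q = (C (eval b p / eval b (X j ^ (i - e) * g)) * X j ^ (i - e)) * g := by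
    linear_combination hq
  rw [this]
  exact I.mul_mem_left _ hgI

lemma hilb_succ {I : Ideal (R 2)} (hI : IsSubschemeIdeal I) {g : R 2} {e : ℕ} (hgI : g ∈ I)
    (hg : g.IsHomogeneous (e + 1)) {b : Fin 2 → ℂ} (hb : b ≠ 0) (hgb : eval b g ≠ 0)
    {i : ℕ} (hi : e ≤ i) : hilb I (i + 1) = hilb I i := by
  unfold hilb
  set F : (R 2 ⧸ I) →ₗ[ℂ] (R 2 ⧸ I) := LinearMap.mulLeft ℂ (Ideal.Quotient.mk I (ell b))
    with hF
  have hFinj : Function.Injective F := by
    rw [← LinearMap.ker_eq_bot, LinearMap.ker_eq_bot']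
    intro x hx
    obtain ⟨h, rfl⟩ := Ideal.Quotient.mk_surjective x
    rw [hF, LinearMap.mulLeft_apply, ← map_mul, Ideal.Quotient.eq_zero_iff_mem] at hx
    rw [Ideal.Quotient.eq_zero_iff_mem]
    exact ell_inj hI hgI hg hb hgb hx
  have hmap : Submodule.map (Ideal.Quotient.mkₐ ℂ I).toLinearMap
      (homogeneousSubmodule (Fin 2) ℂ (i + 1)) =
      Submodule.map F (Submodule.map (Ideal.Quotient.mkₐ ℂ I).toLinearMap
        (homogeneousSubmodule (Fin 2) ℂ i)) := by
    ext x
    constructor
    · rintro ⟨p, hp, rfl⟩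
      obtain ⟨q, hq, hpq⟩ := ell_surj hgI hg hb hgb hi hp
      refine ⟨Ideal.Quotient.mk I q, ⟨q, hq, rfl⟩, ?_⟩
      rw [hF, LinearMap.mulLeft_apply, ← map_mul]
      change _ = Ideal.Quotient.mk I p
      exact ((Ideal.Quotient.eq).mpr hpq).symm
    · rintro ⟨y, ⟨q, hq, rfl⟩, rfl⟩
      refine ⟨ell b * q, ?_, ?_⟩
      · have := (ell_homog b).mul hq
        rw [add_comm] at this
        exact this
      · rw [hF, LinearMap.mulLeft_apply]
        change Ideal.Quotient.mk I (ell b * q) =
          Ideal.Quotient.mk I (ell b) * Ideal.Quotient.mk I q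
        exact map_mul (Ideal.Quotient.mk I) _ _
  rw [hmap]
  exact (Submodule.equivMapOfInjective F hFinj _).finrank_eq.symm

lemma hilb_top {n i : ℕ} : hilb (⊤ : Ideal (R n)) i = 0 := by
  unfold hilb
  have : Subsingleton (R n ⧸ (⊤ : Ideal (R n))) := Ideal.Quotient.subsingleton_iff.mpr rfl
  exact Module.finrank_zero_of_subsingleton

lemma ne_top {n : ℕ} (Z : ZeroDimScheme n) : Z.ideal ≠ ⊤ := by
  intro h
  have h1 := Z.hilb_eq
  rw [h] at h1
  obtain ⟨i, hi⟩ := h1.exists
  rw [hilb_top] at hi
  have := Z.deg_pos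
  omega

lemma one_not_mem {n : ℕ} (Z : ZeroDimScheme n) : (1 : R n) ∉ Z.ideal := by
  intro h
  exact ne_top Z ((Ideal.eq_top_iff_one _).mpr h)

lemma two_bound {Z : ZeroDimScheme 2} {f : R 2} {d : ℕ} (hf : f.IsHomogeneous d)
    (hirr : Irredundant Z f) : hilb Z.ideal d = Z.deg := by
  classical
  have hI := Z.isSub
  -- the ideal is nonzero
  have hbot : Z.ideal ≠ ⊥ := by
    intro hbot
    apply hirr.minimal (K u2 (d + 1)) (K_isSub u2 (d + 1) (j0 := 0) rfl)
    · rw [hbot, bot_lt_iff_ne_bot]
      intro h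
      have h1 : (X 1 ^ (d + 1) : R 2) ∈ K u2 (d + 1) := by
        rw [mem_K_of_homog u2 (d + 1) (isHomogeneous_X_pow (R := ℂ) (1 : Fin 2) (d + 1)), map_pow,
          aeval_X]
        exact dvd_rfl
      rw [h, Submodule.mem_bot] at h1
      exact pow_ne_zero _ (X_ne_zero _) h1
    · intro g hg
      apply act_eq_zero_of_degree hf
      intro i hi
      ext m
      rw [coeff_homogeneousComponent, coeff_zero]
      split_ifs with hm
      · apply K_u2_coeff hg
        rw [degree_two] at hm
        omega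
      · rfl
  have hex : ∃ e, ∃ g ∈ Z.ideal, g ≠ 0 ∧ g.IsHomogeneous e := by
    obtain ⟨g, hg, hg0⟩ := Submodule.exists_mem_ne_zero_of_ne_bot hbot
    have : ∃ i, homogeneousComponent i g ≠ 0 := by
      by_contra hcon
      push Not at hcon
      apply hg0
      rw [← sum_homogeneousComponent g]
      exact Finset.sum_eq_zero fun i _ => hcon i
    obtain ⟨i, hi⟩ := this
    exact ⟨i, _, hI.homog g hg i, hi, homogeneousComponent_isHomogeneous i g⟩
  obtain ⟨g, hgI, hg0, hge⟩ := Nat.find_spec hex
  have hmin : ∀ m < Nat.find hex, ∀ h ∈ Z.ideal, h.IsHomogeneous m → h = 0 := by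
    intro m hm h hh hhm
    by_contra hne
    exact Nat.find_min hex hm ⟨h, hh, hne, hhm⟩
  have he0 : Nat.find hex ≠ 0 := by
    intro he
    rw [he] at hge
    rw [← totalDegree_zero_iff_isHomogeneous, totalDegree_eq_zero_iff_eq_C] at hge
    have hc : coeff 0 g ≠ 0 := by
      intro h
      apply hg0
      rw [hge, h, C_0]
    apply one_not_mem Z
    have := Z.ideal.mul_mem_left (C (coeff 0 g)⁻¹) hgI
    rw [hge] at this
    rw [coeff_C, if_pos rfl, ← C_mul, inv_mul_cancel₀ hc, C_1] at this
    exact this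
  obtain ⟨e, he⟩ := Nat.exists_eq_succ_of_ne_zero he0
  rw [he] at hge hmin
  -- degree bound from irredundancy
  have hed : e ≤ d := by
    by_contra hlt
    push Not at hlt
    obtain ⟨b, hb, hgb⟩ := exists_root hge
    obtain ⟨g', hg'h, hg'⟩ := exists_factor hge hb hgb
    -- the ideal I : ell
    set J : Ideal (R 2) :=
      { carrier := {h | ell b * h ∈ Z.ideal}
        add_mem' := by
          intro x y hx hy
          simp only [Set.mem_ofPred_eq, mul_add] at *
          exact Z.ideal.add_mem hx hy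
        zero_mem' := by simp
        smul_mem' := by
          intro c x hx
          simp only [Set.mem_ofPred_eq, smul_eq_mul] at *
          have : ell b * (c * x) = c * (ell b * x) := by ring
          rw [this]
          exact Z.ideal.mul_mem_left _ hx } with hJ
    have hJmem : ∀ h, h ∈ J ↔ ell b * h ∈ Z.ideal := fun h => Iff.rfl
    have hJsub : IsSubschemeIdeal J := by
      constructor
      · intro h hh i
        rw [hJmem] at hh ⊢
        rw [← hc_mul (ell_homog b)]
        exact hI.homog _ hh _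
      · intro h hh
        rw [hJmem]
        apply hI.sat
        intro j
        have h1 := hh j
        rw [hJmem] at h1
        have : X j * (ell b * h) = ell b * (X j * h) := by ring
        rwa [this]
    have hlt' : Z.ideal < J := by
      rw [lt_iff_le_and_ne]
      constructor
      · intro h hh
        rw [hJmem]
        exact Z.ideal.mul_mem_left _ hh
      · intro heq
        have h1 : g' ∈ J := by
          rw [hJmem, ← hg']
          exact hgI
        rw [← heq] at h1
        have h2 := hmin e (Nat.lt_succ_self e) g' h1 hg'h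
        apply hg0
        rw [hg', h2, mul_zero]
    apply hirr.minimal J hJsub hlt'
    intro h hh
    apply act_eq_zero_of_degree hf
    intro i hi
    have h1 : homogeneousComponent i h ∈ J := hJsub.homog h hh i
    rw [hJmem] at h1
    have h2 := hmin (1 + i) (by omega) _ h1
      ((ell_homog b).mul (homogeneousComponent_isHomogeneous i h))
    exact (mul_eq_zero.mp h2).resolve_left (ell_ne_zero hb)
  -- stabilisation
  obtain ⟨b, hgb⟩ : ∃ b : Fin 2 → ℂ, eval b g ≠ 0 := by
    by_contra hcon
    push Not at hcon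
    apply hg0
    apply MvPolynomial.funext
    intro x
    rw [hcon x, map_zero]
  have hb : b ≠ 0 := by
    intro hb
    apply hgb
    rw [hb, eval_eq']
    apply Finset.sum_eq_zero
    intro m hm
    have hme : m.degree = e + 1 := by
      by_contra hne
      exact (mem_support_iff.mp hm) (hge.coeff_eq_zero hne)
    rw [Fin.prod_univ_two]
    rw [degree_two] at hme
    by_cases hm0 : m 0 = 0
    · have : m 1 ≠ 0 := by omega
      simp [this]
    · simp [hm0]
  have hstab : ∀ i, e ≤ i → hilb Z.ideal i = hilb Z.ideal e := by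
    intro i hi
    induction i, hi using Nat.le_induction with
    | base => rfl
    | succ i hi ih =>
      rw [hilb_succ hI hgI hge hb hgb hi, ih]
  obtain ⟨N, hN⟩ := Filter.eventually_atTop.mp Z.hilb_eq
  have h1 := hN (max N e) (le_max_left _ _)
  rw [hstab _ (le_max_right _ _)] at h1
  rw [hstab d hed, h1]

lemma M_two (d : ℕ) : M 2 d = d := by
  apply le_antisymm _ (M_two_ge d)
  apply sSup_le
  rintro m ⟨f, Z, _, hf, hirr, rfl⟩
  have : Z.reg ≤ d := Nat.sInf_le (two_bound hf hirr)
  exact_mod_cast this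

/-! ### The case `n = 1` -/

lemma homog_one (i : ℕ) :
    homogeneousSubmodule (Fin 1) ℂ i = Submodule.span ℂ {(X 0 ^ i : R 1)} := by
  apply le_antisymm
  · intro p hp
    rw [Submodule.mem_span_singleton]
    refine ⟨coeff (Finsupp.single 0 i) p, ?_⟩
    ext m
    rw [coeff_smul, X_pow_eq_monomial, coeff_monomial, smul_eq_mul]
    have hm : m = Finsupp.single 0 (m 0) := by
      apply Finsupp.ext
      intro j
      have : j = 0 := Subsingleton.elim _ _
      rw [this, Finsupp.single_eq_same]
    split_ifs with h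
    · rw [mul_one, h]
    · rw [mul_zero]
      symm
      apply IsHomogeneous.coeff_eq_zero hp
      intro hd
      apply h
      rw [hm, Finsupp.degree_single] at hd
      rw [hm, hd]
  · rw [Submodule.span_singleton_le_iff_mem]
    exact isHomogeneous_X_pow _ _

lemma M_one (d : ℕ) : M 1 d = 0 := by
  rw [← nonpos_iff_eq_zero]
  apply sSup_le
  rintro m ⟨f, Z, _, hf, hirr, rfl⟩
  have : Z.reg ≤ 0 := by
    apply Nat.sInf_le
    change hilb Z.ideal 0 = Z.deg
    have h0 : hilb Z.ideal 0 = 1 := by
      unfold hilb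
      rw [homog_one, Submodule.map_span, Set.image_singleton, finrank_span_singleton]
      intro h
      apply one_not_mem Z
      rw [pow_zero] at h
      exact Ideal.Quotient.eq_zero_iff_mem.mp h
    have hle : ∀ i, hilb Z.ideal i ≤ 1 := by
      intro i
      unfold hilb
      rw [homog_one, Submodule.map_span, Set.image_singleton]
      exact (finrank_span_le_card _).trans (by simp)
    obtain ⟨i, hi⟩ := Z.hilb_eq.exists
    have h1 := Z.deg_pos
    have h2 := hle i
    omega
  exact_mod_cast this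

theorem main (n d : ℕ) (hn : 1 ≤ n) (hd : 1 ≤ d) :
    M n d = if n = 1 then 0 else if n = 2 then (d : ℕ∞) else ⊤ := by
  split_ifs with h1 h2
  · subst h1
    exact M_one d
  · subst h2
    exact M_two d
  · obtain ⟨k, rfl⟩ : ∃ k, n = k + 3 := ⟨n - 3, by omega⟩
    exact M_ge_three k d hd

end Pool.Agent.Lib.MP_254873_ag
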